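import Pool.Agent.R270.SC.C

set_option autoImplicit false

open MeasureTheory Cardinal Set

namespace Pool.Agent.Results.MP_94b3dc_an.DensityContinuum

/-- A function with values in a real Banach space is scalarly measurable when its composition with
every continuous linear functional is measurable. -/
def ScalarlyMeasurable {Ω X : Type} [MeasurableSpace Ω] [NormedAddCommGroup X] [NormedSpace ℝ X]
    (f : Ω → X) : Prop :=
  ∀ φ : StrongDual ℝ X, Measurable (fun t => φ (f t))

/-- A multi-function is scalarly measurable when it meets every open half-space in a measurable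
set of parameters. -/
def ScalarlyMeasurableMulti {Ω X : Type} [MeasurableSpace Ω] [NormedAddCommGroup X]
    [NormedSpace ℝ X] (F : Ω → Set X) : Prop :=
  ∀ φ : StrongDual ℝ X, φ ≠ 0 → ∀ a : ℝ, MeasurableSet {t | (F t ∩ {x | a < φ x}).Nonempty}

/-- The family of nonempty weakly compact subsets of `X`. -/
def wk (X : Type) [NormedAddCommGroup X] [NormedSpace ℝ X] : Set (Set X) :=
  {C | C.Nonempty ∧ IsCompact ((toWeakSpace ℝ X) '' C)}

/-- Property (SC) of a family `𝒞` of subsets of `X` over one measurable space `Ω`: some set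
selector of `𝒞` turns every scalarly measurable `𝒞`-valued multi-function on `Ω` into a scalarly
measurable function. -/
def PropertySCOn (Ω : Type) [MeasurableSpace Ω] {X : Type} [NormedAddCommGroup X]
    [NormedSpace ℝ X] (𝒞 : Set (Set X)) : Prop :=
  ∃ ψ : Set X → X, (∀ C ∈ 𝒞, ψ C ∈ C) ∧
    ∀ F : Ω → Set X, (∀ t, F t ∈ 𝒞) → ScalarlyMeasurableMulti F →
      ScalarlyMeasurable (fun t => ψ (F t))

/-- Property (SC) of a family `𝒞` of subsets of `X`: some set selector of `𝒞` turns every scalarly
measurable `𝒞`-valued multi-function on any complete probability space into a scalarly measurable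
function. -/
def PropertySC {X : Type} [NormedAddCommGroup X] [NormedSpace ℝ X] (𝒞 : Set (Set X)) : Prop :=
  ∃ ψ : Set X → X, (∀ C ∈ 𝒞, ψ C ∈ C) ∧
    ∀ (Ω : Type) [MeasurableSpace Ω] (μ : Measure Ω) [IsProbabilityMeasure μ], μ.IsComplete →
      ∀ F : Ω → Set X, (∀ t, F t ∈ 𝒞) → ScalarlyMeasurableMulti F →
        ScalarlyMeasurable (fun t => ψ (F t))

/-- `X` has density character `κ`: the least cardinality of a dense subset is `κ`. -/
def HasDensity (X : Type) [TopologicalSpace X] (κ : Cardinal) : Prop :=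
  (∃ D : Set X, Dense D ∧ #D = κ) ∧ ∀ D : Set X, Dense D → κ ≤ #D

/-- (1) There are a complete probability space `Ω` and a Banach space `X` of density exactly `2^ω`
such that no family of subsets of `X` containing all the sets `{x, -x}` has property (SC), even over
the single space `Ω`; in particular the family `wk(X)` of nonempty weakly compact sets fails
property (SC). (2) Hence, under the continuum hypothesis, `wk(X)` fails property (SC) for some
Banach space `X` of density `ω₁`. -/
theorem result :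
    (∃ (Ω : Type) (_ : MeasurableSpace Ω) (μ : Measure Ω) (_ : IsProbabilityMeasure μ)
      (_ : μ.IsComplete) (X : Type) (_ : NormedAddCommGroup X) (_ : NormedSpace ℝ X)
      (_ : CompleteSpace X), HasDensity X 𝔠 ∧
        (∀ 𝒞 : Set (Set X), (∀ x : X, {x, -x} ∈ 𝒞) → ¬ PropertySCOn Ω 𝒞) ∧
        ¬ PropertySC (wk X)) ∧
    ((𝔠 : Cardinal.{0}) = aleph 1 → ∃ (X : Type) (_ : NormedAddCommGroup X) (_ : NormedSpace ℝ X)
      (_ : CompleteSpace X), HasDensity X (aleph 1) ∧ ¬ PropertySC (wk X)) := by
  have main : ∃ (Ω : Type) (_ : MeasurableSpace Ω) (μ : Measure Ω) (_ : IsProbabilityMeasure μ)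
      (_ : μ.IsComplete) (X : Type) (_ : NormedAddCommGroup X) (_ : NormedSpace ℝ X)
      (_ : CompleteSpace X), HasDensity X 𝔠 ∧
        (∀ 𝒞 : Set (Set X), (∀ x : X, {x, -x} ∈ 𝒞) → ¬ PropertySCOn Ω 𝒞) ∧
        ¬ PropertySC (wk X) := by
    let W : Type := (aleph.{0} 1).ord.ToType
    have hcard : #W = aleph 1 := Cardinal.mk_ord_toType _
    have hunc : Uncountable W := by
      rw [← Cardinal.aleph0_lt_mk_iff, hcard]
      exact Cardinal.aleph0_lt_aleph_one
    have hW : ∀ t : W, (Iio t).Countable := by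
      intro t
      have h1 : #(Iio t) < aleph 1 := Cardinal.mk_Iio_ord_toType t
      have h2 : #(Iio t) ≤ ℵ₀ := by
        rw [← Order.lt_succ_iff, Cardinal.succ_aleph0]
        exact h1
      exact Cardinal.le_aleph0_iff_set_countable.1 h2
    have hc : #W ≤ 𝔠 := by
      rw [hcard]; exact Cardinal.aleph_one_le_continuum
    let Ω := W × Bool
    have hΩ : Uncountable Ω := by
      have : Function.Injective (fun t : W => ((t, true) : Ω)) := fun a b h => (Prod.mk.inj h).1
      exact this.uncountable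
    have hall : ∀ 𝒞 : Set (Set (R270.SC.X W)), (∀ x : R270.SC.X W, {x, -x} ∈ 𝒞) →
        ¬ @PropertySCOn Ω (R270.SC.ccMS Ω) (R270.SC.X W) _ _ 𝒞 := by
      rintro 𝒞 h𝒞 ⟨ψ, hψ, hm⟩
      exact R270.SC.not_good hW (ψ := ψ) (𝒞 := 𝒞) ⟨h𝒞, hψ, hm⟩
    have hpair : ∀ x : R270.SC.X W, {x, -x} ∈ wk (R270.SC.X W) := by
      intro x
      refine ⟨⟨x, by simp⟩, ?_⟩
      exact ((Set.toFinite ({x, -x} : Set (R270.SC.X W))).image _).isCompact
    refine ⟨Ω, R270.SC.ccMS Ω, R270.SC.ccMeasure Ω, R270.SC.ccMeasure_prob Ω,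
      R270.SC.ccMeasure_complete Ω, R270.SC.X W, inferInstance, inferInstance, inferInstance,
      R270.SC.density hW hc, hall, ?_⟩
    rintro ⟨ψ, hψ, hm⟩
    apply hall (wk (R270.SC.X W)) hpair
    refine ⟨ψ, hψ, ?_⟩
    letI := R270.SC.ccMS Ω
    letI := R270.SC.ccMeasure_prob Ω
    exact hm Ω (R270.SC.ccMeasure Ω) (R270.SC.ccMeasure_complete Ω)
  refine ⟨main, fun hCH => ?_⟩
  obtain ⟨_, _, _, _, _, X, i1, i2, i3, h1, _, h2⟩ := main
  refine ⟨X, i1, i2, i3, ?_, h2⟩
  rw [← hCH]
  exact h1

end Pool.Agent.Results.MP_94b3dc_an.DensityContinuum
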